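import Pool.Agent.W564.SC.Defs

set_option autoImplicit false

namespace Pool.Agent.W135.SC.Count

open Pool.Agent.W564.SC

lemma zsum (Q : ℕ) (hQ : 3 ≤ Q) :
    (∑ q ∈ Finset.Icc 2 Q, ((q - 1 : ℕ) : ℝ) * (1 / (q : ℝ) ^ 3) : ℝ) ≤ 27 / 50 - 1 / (Q : ℝ) := by
  induction Q, hQ using Nat.le_induction with
  | base =>
    rw [show Finset.Icc 2 3 = ({2, 3} : Finset ℕ) from rfl, Finset.sum_pair (by norm_num)]
    norm_num
  | succ Q hQ ih =>
    rw [Finset.sum_Icc_succ_top (by omega)]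
    have hQ0 : (0 : ℝ) < Q := by
      have : 0 < Q := by omega
      exact_mod_cast this
    have h1 : ((Q + 1 - 1 : ℕ) : ℝ) * (1 / ((Q + 1 : ℕ) : ℝ) ^ 3) ≤
        1 / Q - 1 / ((Q + 1 : ℕ) : ℝ) := by
      rw [Nat.add_sub_cancel]
      push_cast
      have e : 1 / (Q : ℝ) - 1 / ((Q : ℝ) + 1) = 1 / (Q * (Q + 1)) := by
        field_simp
        ring
      rw [e, mul_one_div, div_le_div_iff₀ (by positivity) (by positivity)]
      nlinarith [hQ0, mul_pos hQ0 hQ0]
    linarith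

/-- number of separated points -/
lemma sep_card (R m : ℕ) (hR : 1 ≤ R) (I : Finset ℕ) (h1 : ∀ i ∈ I, R ≤ i ∧ i + R ≤ m)
    (h2 : ∀ i ∈ I, ∀ j ∈ I, i < j → i + R ≤ j) : I.card * R ≤ m := by
  have h3 : I.card ≤ (Finset.range (m / R)).card := by
    refine Finset.card_le_card_of_injOn (fun i => i / R) ?_ ?_
    · intro i hi
      have h := (h1 i hi).2
      have h4 : (i + R) / R ≤ m / R := Nat.div_le_div_right h
      rw [Nat.add_div_right _ (by omega)] at h4
      simp only [Finset.coe_range, Set.mem_Iio]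
      omega
    · intro i hi j hj hij
      by_contra hne
      have key : ∀ a ∈ I, ∀ b ∈ I, a < b → a / R < b / R := by
        intro a ha b hb hab
        have h := h2 a ha b hb hab
        have h4 : (a + R) / R ≤ b / R := Nat.div_le_div_right h
        rw [Nat.add_div_right _ (by omega)] at h4
        omega
      have hij' : i / R = j / R := hij
      rcases lt_or_gt_of_ne hne with h | h
      · have := key i hi j hj h; omega
      · have := key j hj i hi h; omega
  rw [Finset.card_range] at h3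
  calc I.card * R ≤ m / R * R := Nat.mul_le_mul_right _ h3
    _ ≤ m := Nat.div_mul_le_self _ _

/-- the cube -/
lemma cube_le {k : ℕ} (hk : 3 ≤ k) {q N : ℝ} (hq : 2 ≤ q) (hN : 2 ≤ N) :
    (N / q + 1) ^ k ≤ N ^ k * (1 / q ^ 3 + 4 / N) := by
  have hq0 : 0 < q := by linarith
  have hN0 : 0 < N := by linarith
  have e : N / q + 1 = N * (1 / q + 1 / N) := by field_simp
  have a1 : 1 / q ≤ 1 / 2 := one_div_le_one_div_of_le (by norm_num) hq
  have a2 : 1 / N ≤ 1 / 2 := one_div_le_one_div_of_le (by norm_num) hN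
  have a3 : 0 < 1 / q := by positivity
  have a4 : 0 < 1 / N := by positivity
  rw [e, mul_pow]
  refine mul_le_mul_of_nonneg_left ?_ (by positivity)
  calc (1 / q + 1 / N) ^ k ≤ (1 / q + 1 / N) ^ 3 :=
        pow_le_pow_of_le_one (by positivity) (by linarith) hk
    _ ≤ 1 / q ^ 3 + 4 / N := by
        have b1 : 1 / q ^ 3 = (1 / q) ^ 3 := by rw [one_div_pow]
        have b2 : 4 / N = 4 * (1 / N) := by ring
        rw [b1, b2]
        generalize 1 / q = x at *
        generalize 1 / N = y at *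
        have c1 : x * y ≤ 1 / 2 * y := mul_le_mul_of_nonneg_right a1 a4.le
        have c2 : x * (x * y) ≤ 1 / 2 * (1 / 2 * y) :=
          mul_le_mul a1 c1 (by positivity) (by norm_num)
        have c3 : y * y ≤ 1 / 2 * y := mul_le_mul_of_nonneg_right a2 a4.le
        have c4 : x * (y * y) ≤ 1 / 2 * (1 / 2 * y) :=
          mul_le_mul a1 c3 (by positivity) (by norm_num)
        have c5 : y * (y * y) ≤ 1 / 2 * (1 / 2 * y) :=
          mul_le_mul a2 c3 (by positivity) (by norm_num)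
        nlinarith [c2, c4, c5, a4]

/-- the least denominator -/
lemma exq (m i : ℕ) (ρ : ℝ) (hm : 1 ≤ m) (hρ : 0 < ρ) :
    ∃ (q : ℕ) (b : ℤ), 1 ≤ q ∧ q ≤ m ∧ |(i : ℝ) * ((q : ℝ) / m) - b| < 2 * ρ ∧
      ∀ q' : ℕ, 1 ≤ q' → q' < q → ∀ t : ℤ, 2 * ρ ≤ |(i : ℝ) * ((q' : ℝ) / m) - t| := by
  classical
  have hmR : (m : ℝ) ≠ 0 := by
    have : m ≠ 0 := by omega
    exact_mod_cast this
  have hex : ∃ q : ℕ, 1 ≤ q ∧ ∃ b : ℤ, |(i : ℝ) * ((q : ℝ) / m) - b| < 2 * ρ := by
    refine ⟨m, hm, (i : ℤ), ?_⟩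
    rw [div_self hmR]
    simpa using hρ
  obtain ⟨hq1, b, hb⟩ := Nat.find_spec hex
  refine ⟨Nat.find hex, b, hq1, ?_, hb, ?_⟩
  · refine Nat.find_min' hex ⟨hm, (i : ℤ), ?_⟩
    rw [div_self hmR]
    simpa using hρ
  · intro q' h1 h2 t
    have h3 := Nat.find_min hex h2
    push Not at h3
    exact h3 h1 t

theorem count (h1 : S_CN1) (h2 : S_CN2) : S_COUNT := by
  classical
  intro k hk ε hε hε1
  have h16 : (0 : ℝ) < 4 * 16 ^ k := by positivity
  refine ⟨⌈100 / ε⌉₊, min (1 / 8) (1 / (4 * 16 ^ k)), ?_, lt_min (by norm_num) (by positivity), ?_⟩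
  · have : (0 : ℝ) < 100 / ε := by positivity
    exact Nat.ceil_pos.mpr this
  intro ρ hρ hρc m I hm hI1 hI2 hI3 θ C
  set R : ℕ := ⌈100 / ε⌉₊ with hR
  have hRge : 100 / ε ≤ (R : ℝ) := Nat.le_ceil _
  have hR100 : (100 : ℝ) ≤ R := by
    refine le_trans ?_ hRge
    rw [le_div_iff₀ hε]
    linarith
  have hR1 : 1 ≤ R := by
    have : (1 : ℝ) ≤ R := by linarith
    exact_mod_cast this
  have hmR : (R : ℝ) ≤ m := by exact_mod_cast hm
  have hm0 : (0 : ℝ) < m := by linarith
  have hm1 : 1 ≤ m := le_trans hR1 hm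
  have hm3 : 3 ≤ m := by
    have : (3 : ℝ) ≤ m := by linarith
    exact_mod_cast this
  -- N
  set N : ℕ := ⌊ε * m⌋₊ with hN
  have hεm : 100 ≤ ε * m := by
    have := (div_le_iff₀ hε).mp (hRge.trans hmR)
    linarith
  have hNle : (N : ℝ) ≤ ε * m := Nat.floor_le (by linarith)
  have hNge : ε * m - 1 < (N : ℝ) := Nat.sub_one_lt_floor _
  have hN99 : (99 : ℝ) < N := by linarith
  have hN0 : (0 : ℝ) < N := by linarith
  have hNhalf : ε * m / 2 ≤ N := by linarith
  have hmN : (m : ℝ) / N ≤ 2 / ε := by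
    rw [div_le_div_iff₀ hN0 hε]
    linarith
  have hδR : 2 * (2 / ε) < R := by
    refine lt_of_lt_of_le ?_ hRge
    rw [← mul_div_assoc]
    exact div_lt_div_of_pos_right (by norm_num) hε
  -- number of elements
  have hcardm : (I.card : ℝ) * R ≤ m := by
    exact_mod_cast sep_card R m hR1 I hI1 hI2
  have hcardN : (I.card : ℝ) / N ≤ 1 / 50 := by
    rw [div_le_iff₀ hN0]
    have a1 : (I.card : ℝ) * (100 / ε) ≤ m :=
      (mul_le_mul_of_nonneg_left hRge (Nat.cast_nonneg _)).trans hcardm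
    have a2 : (I.card : ℝ) * 100 ≤ m * ε := by
      have := mul_le_mul_of_nonneg_right a1 hε.le
      rwa [mul_assoc, div_mul_cancel₀ _ hε.ne'] at this
    linarith
  -- denominators
  choose q b hq1 hqm hqb hqmin using fun i => exq m i ρ hm1 hρ
  have hρ8 : ρ ≤ 1 / 8 := hρc.trans (min_le_left _ _)
  -- the bad sets
  set a : Fin k → ℤ := fun j => ⌈θ j⌉ with ha
  set cc : ℕ → Fin k → ℝ := fun i j => C i j - i * (θ j / m) with hcc
  set bF : ℕ → Fin k → Finset ℤ := fun i j =>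
    (Finset.Ico (a j) (a j + N)).filter (fun l => ∃ t : ℤ, |cc i j + i * (l / m) - t| < ρ) with hbF
  have hbFcard : ∀ i j, ((bF i j).card : ℝ) = ((Bad m i ρ (cc i j) (a j) N).ncard : ℝ) := by
    intro i j
    have : Bad m i ρ (cc i j) (a j) N = (bF i j : Set ℤ) := by
      ext l
      simp only [Bad, hbF, Set.mem_ofPred_eq, Finset.coe_filter, Finset.mem_Ico]
      tauto
    rw [this, Set.ncard_coe_finset]
  set BB : ℕ → Finset (Fin k → ℤ) := fun i => Fintype.piFinset (fun j => bF i j) with hBB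
  have hBBcard : ∀ i, ∀ x : ℝ, (∀ j, ((bF i j).card : ℝ) ≤ x) → ((BB i).card : ℝ) ≤ x ^ k := by
    intro i x hx
    rw [hBB]
    simp only
    rw [Fintype.card_piFinset]
    push_cast
    calc ∏ j, ((bF i j).card : ℝ) ≤ ∏ _j : Fin k, x :=
          Finset.prod_le_prod (fun j _ => Nat.cast_nonneg _) (fun j _ => hx j)
      _ = x ^ k := by simp
  -- types
  set T1 : Finset ℕ := I.filter (fun i => 1 ≤ (N : ℝ) * |(i : ℝ) / m - b i / q i|) with hT1
  set T2 : Finset ℕ := I.filter (fun i => ¬ 1 ≤ (N : ℝ) * |(i : ℝ) / m - b i / q i|) with hT2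
  have s1 : ∑ i ∈ T1, ((BB i).card : ℝ) ≤ (N : ℝ) ^ k * (1 / 4) := by
    have t1 : ∀ i ∈ T1, ((BB i).card : ℝ) ≤ (16 * ρ * N) ^ k := by
      intro i hi
      refine hBBcard i _ fun j => ?_
      rw [hbFcard]
      exact h2 m i (q i) N (b i) ρ (cc i j) (a j) hm1 (hq1 i) hρ hρ8 (hqb i)
        (Finset.mem_filter.mp hi).2
    calc ∑ i ∈ T1, ((BB i).card : ℝ) ≤ ∑ _i ∈ T1, (16 * ρ * N) ^ k := Finset.sum_le_sum t1
      _ = T1.card * (16 * ρ * N) ^ k := by rw [Finset.sum_const, nsmul_eq_mul]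
      _ ≤ I.card * (16 * ρ * N) ^ k := by
          refine mul_le_mul_of_nonneg_right ?_ (by positivity)
          exact_mod_cast Finset.card_filter_le _ _
      _ ≤ (1 / (4 * 16 ^ k) * ρ⁻¹ ^ k) * (16 * ρ * N) ^ k := by
          refine mul_le_mul_of_nonneg_right ?_ (by positivity)
          refine hI3.trans ?_
          exact mul_le_mul_of_nonneg_right (min_le_right _ _) (by positivity)
      _ = (N : ℝ) ^ k * (1 / 4) := by
          rw [mul_pow, mul_pow, inv_pow]
          field_simp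
  -- type 2
  have hloc : ∀ i ∈ T2, |(i : ℝ) - b i * m / q i| < 2 / ε := by
    intro i hi
    have h3 := (Finset.mem_filter.mp hi).2
    push Not at h3
    have hq0 : (0 : ℝ) < q i := by exact_mod_cast hq1 i
    have e : (i : ℝ) - b i * m / q i = m * ((i : ℝ) / m - b i / q i) := by field_simp
    rw [e, abs_mul, abs_of_pos hm0]
    refine lt_of_lt_of_le ?_ hmN
    rw [lt_div_iff₀ hN0]
    calc (m : ℝ) * |(i : ℝ) / m - b i / q i| * N = m * (N * |(i : ℝ) / m - b i / q i|) := by ring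
      _ < m * 1 := mul_lt_mul_of_pos_left h3 hm0
      _ = m := mul_one _
  have hbpos : ∀ i ∈ T2, 0 < b i ∧ b i < q i := by
    intro i hi
    have h3 := abs_lt.mp (hloc i hi)
    have hiI := hI1 i (Finset.mem_filter.mp hi).1
    have hq0 : (0 : ℝ) < q i := by exact_mod_cast hq1 i
    have hi1 : (R : ℝ) ≤ i := by exact_mod_cast hiI.1
    have hi2 : (i : ℝ) + R ≤ m := by exact_mod_cast hiI.2
    have hδ0 : 0 < 2 / ε := by positivity
    constructor
    · have h4 : 0 < (b i : ℝ) * m / q i := by linarith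
      have h5 : 0 < (b i : ℝ) * m := by
        by_contra hc
        push Not at hc
        exact absurd h4 (not_lt.mpr (div_nonpos_of_nonpos_of_nonneg hc hq0.le))
      have h6 : 0 < (b i : ℝ) := pos_of_mul_pos_left h5 hm0.le
      exact_mod_cast h6
    · have h4 : (b i : ℝ) * m / q i < m := by linarith
      rw [div_lt_iff₀ hq0] at h4
      have h5 : (b i : ℝ) < q i := by
        by_contra hc
        push Not at hc
        nlinarith
      exact_mod_cast h5
  have hinj : Set.InjOn (fun i => (⟨q i, (b i).toNat⟩ : Σ _ : ℕ, ℕ)) (T2 : Set ℕ) := by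
    intro i hi i' hi' hii
    simp only [Sigma.mk.injEq, heq_eq_eq] at hii
    obtain ⟨e1, e2⟩ := hii
    have p1 := hbpos i hi
    have p2 := hbpos i' hi'
    have e3 : b i = b i' := by omega
    have l1 := abs_lt.mp (hloc i hi)
    have l2 := abs_lt.mp (hloc i' hi')
    rw [e1, e3] at l1
    have hiI := (Finset.mem_filter.mp hi).1
    have hiI' := (Finset.mem_filter.mp hi').1
    by_contra hne
    rcases lt_or_gt_of_ne hne with h | h
    · have h5 : ((i : ℝ)) + R ≤ i' := by exact_mod_cast hI2 i hiI i' hiI' h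
      linarith [l1.1, l1.2, l2.1, l2.2]
    · have h5 : ((i' : ℝ)) + R ≤ i := by exact_mod_cast hI2 i' hiI' i hiI h
      linarith [l1.1, l1.2, l2.1, l2.2]
  have s3 : ∑ i ∈ T2, 1 / (q i : ℝ) ^ 3 ≤ 27 / 50 := by
    calc ∑ i ∈ T2, 1 / (q i : ℝ) ^ 3
        = ∑ x ∈ T2.image (fun i => (⟨q i, (b i).toNat⟩ : Σ _ : ℕ, ℕ)), 1 / (x.1 : ℝ) ^ 3 := by
          rw [Finset.sum_image hinj]
      _ ≤ ∑ x ∈ (Finset.Icc 2 m).sigma (fun q => Finset.Icc 1 (q - 1)), 1 / (x.1 : ℝ) ^ 3 := by
          refine Finset.sum_le_sum_of_subset_of_nonneg ?_ fun x _ _ => by positivity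
          intro x hx
          obtain ⟨i, hi, rfl⟩ := Finset.mem_image.mp hx
          have p1 := hbpos i hi
          have p2 := hqm i
          simp only [Finset.mem_sigma, Finset.mem_Icc]
          omega
      _ = ∑ q ∈ Finset.Icc 2 m, ((q - 1 : ℕ) : ℝ) * (1 / (q : ℝ) ^ 3) := by
          rw [Finset.sum_sigma]
          refine Finset.sum_congr rfl fun q _ => ?_
          show ∑ _s ∈ Finset.Icc 1 (q - 1), 1 / (q : ℝ) ^ 3 = _
          rw [Finset.sum_const, nsmul_eq_mul, Nat.card_Icc]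
          congr 2
      _ ≤ 27 / 50 - 1 / m := zsum m hm3
      _ ≤ 27 / 50 := by
          have : 0 < 1 / (m : ℝ) := by positivity
          linarith
  have s2 : ∑ i ∈ T2, ((BB i).card : ℝ) ≤ (N : ℝ) ^ k * (31 / 50) := by
    have t2 : ∀ i ∈ T2, ((BB i).card : ℝ) ≤ (N : ℝ) ^ k * (1 / (q i : ℝ) ^ 3 + 4 / N) := by
      intro i hi
      have p1 := hbpos i hi
      have hq2 : (2 : ℝ) ≤ q i := by
        have : 2 ≤ q i := by omega
        exact_mod_cast this
      refine le_trans (hBBcard i (N / q i + 1) fun j => ?_)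
        (cube_le hk hq2 (by linarith))
      rw [hbFcard]
      exact h1 m i (q i) N ρ (cc i j) (a j) hm1 (hq1 i) hρ (hqmin i)
    calc ∑ i ∈ T2, ((BB i).card : ℝ)
        ≤ ∑ i ∈ T2, (N : ℝ) ^ k * (1 / (q i : ℝ) ^ 3 + 4 / N) := Finset.sum_le_sum t2
      _ = (N : ℝ) ^ k * (∑ i ∈ T2, 1 / (q i : ℝ) ^ 3 + T2.card * (4 / N)) := by
          rw [← Finset.mul_sum, Finset.sum_add_distrib, Finset.sum_const, nsmul_eq_mul]
      _ ≤ (N : ℝ) ^ k * (27 / 50 + 4 / 50) := by
          refine mul_le_mul_of_nonneg_left (add_le_add s3 ?_) (by positivity)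
          have : (T2.card : ℝ) ≤ I.card := by exact_mod_cast Finset.card_filter_le _ _
          calc (T2.card : ℝ) * (4 / N) ≤ I.card * (4 / N) :=
                mul_le_mul_of_nonneg_right this (by positivity)
            _ = 4 * (I.card / N) := by ring
            _ ≤ 4 / 50 := by linarith
      _ = (N : ℝ) ^ k * (31 / 50) := by norm_num
  have stot : ∑ i ∈ I, ((BB i).card : ℝ) < (N : ℝ) ^ k := by
    rw [← Finset.sum_filter_add_sum_filter_not I
      (fun i => 1 ≤ (N : ℝ) * |(i : ℝ) / m - b i / q i|)]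
    have hp : (0 : ℝ) < (N : ℝ) ^ k := by positivity
    have := add_le_add s1 s2
    nlinarith
  -- the good vector
  set Box : Finset (Fin k → ℤ) := Fintype.piFinset (fun j => Finset.Ico (a j) (a j + N)) with hBox
  have hBoxcard : (Box.card : ℝ) = (N : ℝ) ^ k := by
    rw [hBox, Fintype.card_piFinset]
    push_cast
    simp
  obtain ⟨l, hl, hlg⟩ : ∃ l ∈ Box, ∀ i ∈ I, l ∉ BB i := by
    by_contra hc
    push Not at hc
    have hsub : Box ⊆ I.biUnion BB := by
      intro l hl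
      obtain ⟨i, hi, hli⟩ := hc l hl
      exact Finset.mem_biUnion.mpr ⟨i, hi, hli⟩
    have h3 : (Box.card : ℝ) ≤ ∑ i ∈ I, ((BB i).card : ℝ) := by
      have h4 := (Finset.card_le_card hsub).trans Finset.card_biUnion_le
      exact_mod_cast h4
    rw [hBoxcard] at h3
    linarith
  have hlj : ∀ j, a j ≤ l j ∧ l j < a j + N := fun j =>
    Finset.mem_Ico.mp ((Fintype.mem_piFinset.mp hl) j)
  refine ⟨l, ?_, ?_⟩
  · intro j
    have p1 : θ j ≤ a j := Int.le_ceil _
    have p2 : (a j : ℝ) < θ j + 1 := Int.ceil_lt_add_one _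
    have p3 : (a j : ℝ) ≤ l j := by exact_mod_cast (hlj j).1
    have p4 : (l j : ℝ) + 1 ≤ a j + N := by exact_mod_cast (hlj j).2
    constructor
    · apply div_nonneg _ hm0.le
      linarith
    · rw [div_le_iff₀ hm0]
      linarith
  · intro i hi
    have h3 := hlg i hi
    rw [hBB] at h3
    simp only [Fintype.mem_piFinset, not_forall] at h3
    obtain ⟨j, hj⟩ := h3
    refine ⟨j, fun t => ?_⟩
    by_contra hc
    push Not at hc
    apply hj
    rw [hbF]
    simp only [Finset.mem_filter, Finset.mem_Ico]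
    refine ⟨hlj j, t, ?_⟩
    rw [hcc]
    simp only
    have e : C i j - (i : ℝ) * (θ j / m) + i * ((l j : ℝ) / m) - t =
        C i j + i * ((l j - θ j) / m) - t := by ring
    rw [e]
    exact hc

end Pool.Agent.W135.SC.Count
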